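import Mathlib
import Pool.Agent.TH202.FlRes
import Pool.Agent.TH202.RL
import Pool.Agent.TH202.Cen

/-!
# The centre of the valuation `c = 0` on the varieties in the sequence of flips
-/

set_option autoImplicit false
namespace Pool.Agent.TH790.FL_P0
open Pool.Agent.H436R3.Fol Pool.Agent.TH202 MvPolynomial

section poly

variable {K : Type} [Field K] [Algebra ℂ K]

theorem const_of_isIntegral {F : Type} [Field F] [Algebra ℂ F] {u : F} (h : IsIntegral ℂ u) :
    ∃ z : ℂ, algebraMap ℂ F z = u := by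
  have h1 := IsAlgClosed.degree_eq_one_of_irreducible ℂ (minpoly.irreducible h)
  exact minpoly.mem_range_of_degree_eq_one ℂ u h1

/-- Elements integral over polynomials in `c` with constant term in `ℂ` are of the same form. -/
theorem integral_form {F : Type} [Field F] [Algebra ℂ F] [Algebra F K] [IsScalarTower ℂ F K] (c : K)
    (hc : Transcendental F c) (htop : IntermediateField.adjoin F {c} = ⊤)
    (B : Subalgebra ℂ K) (hB : ∀ f ∈ B, ∃ p : Polynomial F, Polynomial.aeval c p = f ∧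
      ∃ z : ℂ, p.coeff 0 = algebraMap ℂ F z) {f : K} (hf : IsIntegral B f) :
    ∃ p : Polynomial F, Polynomial.aeval c p = f ∧ ∃ z : ℂ, p.coeff 0 = algebraMap ℂ F z := by
  let _ : Algebra (Polynomial F) K := (Polynomial.aeval (R := F) c).toRingHom.toAlgebra
  have hmap : ∀ p : Polynomial F, algebraMap (Polynomial F) K p = Polynomial.aeval c p :=
    fun _ => rfl
  have hinj : Function.Injective (algebraMap (Polynomial F) K) :=
    transcendental_iff_injective.1 hc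
  have : FaithfulSMul (Polynomial F) K := (faithfulSMul_iff_algebraMap_injective _ _).2 hinj
  have : IsFractionRing (Polynomial F) K := IsFractionRing.of_field _ _ (by
    intro z
    have hz : z ∈ IntermediateField.adjoin F {c} := htop ▸ IntermediateField.mem_top
    exact (IntermediateField.mem_adjoin_simple_iff F z).1 hz)
  have : IsScalarTower ℂ (Polynomial F) K := IsScalarTower.of_algebraMap_eq (by
    intro z
    rw [hmap, IsScalarTower.algebraMap_apply ℂ F (Polynomial F), Polynomial.algebraMap_eq,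
      Polynomial.aeval_C, ← IsScalarTower.algebraMap_apply])
  -- the subalgebra of polynomials with constant term in `ℂ`
  let A0 : Subalgebra ℂ (Polynomial F) :=
    { carrier := {p | ∃ z : ℂ, p.coeff 0 = algebraMap ℂ F z}
      mul_mem' := by
        rintro p q ⟨z, hz⟩ ⟨w, hw⟩
        exact ⟨z * w, by rw [Polynomial.mul_coeff_zero, hz, hw, map_mul]⟩
      add_mem' := by
        rintro p q ⟨z, hz⟩ ⟨w, hw⟩
        exact ⟨z + w, by rw [Polynomial.coeff_add, hz, hw, map_add]⟩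
      algebraMap_mem' := by
        intro z
        refine ⟨z, ?_⟩
        rw [IsScalarTower.algebraMap_apply ℂ F (Polynomial F), Polynomial.algebraMap_eq,
          Polynomial.coeff_C_zero] }
  have hA0 : ∀ p : Polynomial F, p ∈ A0 ↔ ∃ z : ℂ, p.coeff 0 = algebraMap ℂ F z := fun _ => Iff.rfl
  -- transfer of integrality
  choose g hg1 hg2 using fun b : B => hB b b.2
  have hgm : ∀ b1 b2 : B, g (b1 * b2) = g b1 * g b2 := by
    intro b1 b2
    apply hinj
    rw [map_mul, hmap, hmap, hmap, hg1, hg1, hg1]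
    rfl
  have hga : ∀ b1 b2 : B, g (b1 + b2) = g b1 + g b2 := by
    intro b1 b2
    apply hinj
    rw [map_add, hmap, hmap, hmap, hg1, hg1, hg1]
    rfl
  have hg0 : g 0 = 0 := by
    apply hinj
    rw [map_zero, hmap, hg1]
    rfl
  have hgone : g 1 = 1 := by
    apply hinj
    rw [map_one, hmap, hg1]
    rfl
  let G : B →+* A0 :=
    { toFun := fun b => ⟨g b, hg2 b⟩
      map_one' := Subtype.ext hgone
      map_mul' := fun b1 b2 => Subtype.ext (hgm b1 b2)
      map_zero' := Subtype.ext hg0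
      map_add' := fun b1 b2 => Subtype.ext (hga b1 b2) }
  have h1 : IsIntegral A0 f := by
    have := IsIntegral.map_of_comp_eq (R := B) (S := K) (T := A0) (U := K) G (RingHom.id K) (by
      ext b
      change algebraMap (Polynomial F) K (g b) = (b : K)
      rw [hmap, hg1]) hf
    exact this
  have : IsScalarTower A0 (Polynomial F) K := IsScalarTower.of_algebraMap_eq (fun _ => rfl)
  have h2 : IsIntegral (Polynomial F) f := h1.tower_top
  obtain ⟨q, hq⟩ := (IsIntegrallyClosed.isIntegral_iff (R := Polynomial F) (K := K)).1 h2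
  refine ⟨q, hq, ?_⟩
  rw [← hq] at h1
  have h3 : IsIntegral A0 q := (isIntegral_algebraMap_iff hinj).1 h1
  let C0 : A0 →+* (⊥ : Subalgebra ℂ F) :=
    { toFun := fun p => ⟨(p : Polynomial F).coeff 0, by
        obtain ⟨z, hz⟩ := p.2
        rw [Algebra.mem_bot]
        exact ⟨z, hz.symm⟩⟩
      map_one' := Subtype.ext (by simp)
      map_mul' := fun p q => Subtype.ext (by simp [Polynomial.mul_coeff_zero])
      map_zero' := Subtype.ext (by simp)
      map_add' := fun p q => Subtype.ext (by simp) }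
  have h4 : IsIntegral (⊥ : Subalgebra ℂ F) (Polynomial.constantCoeff q) :=
    IsIntegral.map_of_comp_eq (R := A0) (S := Polynomial F) (T := (⊥ : Subalgebra ℂ F)) (U := F)
      C0 Polynomial.constantCoeff (by
        ext p
        rfl) h3
  have : Algebra.IsIntegral ℂ (⊥ : Subalgebra ℂ F) := ⟨by
    rintro ⟨x, hx⟩
    obtain ⟨z, hz⟩ := Algebra.mem_bot.1 hx
    have : (⟨x, hx⟩ : (⊥ : Subalgebra ℂ F)) = algebraMap ℂ _ z := Subtype.ext hz.symm
    rw [this]
    exact isIntegral_algebraMap⟩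
  have h5 : IsIntegral ℂ (Polynomial.constantCoeff q) := isIntegral_trans _ h4
  obtain ⟨z, hz⟩ := const_of_isIntegral h5
  exact ⟨z, hz.symm⟩

end poly

variable {K : Type} [Field K] [Algebra ℂ K]

/-- The ratios of the system by a member of least order are in `B`. -/
def Good (v : DVal K) (B : Subalgebra ℂ K) {m : ℕ} (f : Fin (m + 1) → K) : Prop :=
  (∀ j, f j ≠ 0) ∧ ∀ l, (∀ j, v.ord (f l) ≤ v.ord (f j)) → ∀ j, f j / f l ∈ B

theorem Good.pm {v : DVal K} {B : Subalgebra ℂ K} {m n : ℕ} {f : Fin (m + 1) → K}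
    {g : Fin (n + 1) → K} (hf : Good v B f) (hg : Good v B g) : Good v B (pm f g) := by
  refine ⟨pm_ne hf.1 hg.1, fun l hl j => ?_⟩
  obtain ⟨i1, i2, h, h1, h2⟩ := pm_ratio hf.1 hg.1 l
  obtain ⟨j1, j2, h'⟩ := pm_form f g j
  have e1 : ∀ j, v.ord (f i1) ≤ v.ord (f j) := by
    intro j
    obtain ⟨l', hl'⟩ := h1 j
    have h3 := hl l'
    have h4 : v.ord (Pool.Agent.TH202.pm f g l' / Pool.Agent.TH202.pm f g l) = v.ord (f j / f i1) :=
      congrArg _ hl'
    rw [v.ord_div (pm_ne hf.1 hg.1 _) (pm_ne hf.1 hg.1 _), v.ord_div (hf.1 _) (hf.1 _)] at h4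
    omega
  have e2 : ∀ j, v.ord (g i2) ≤ v.ord (g j) := by
    intro j
    obtain ⟨l', hl'⟩ := h2 j
    have h3 := hl l'
    have h4 : v.ord (Pool.Agent.TH202.pm f g l' / Pool.Agent.TH202.pm f g l) = v.ord (g j / g i2) :=
      congrArg _ hl'
    rw [v.ord_div (pm_ne hf.1 hg.1 _) (pm_ne hf.1 hg.1 _), v.ord_div (hg.1 _) (hg.1 _)] at h4
    omega
  have e3 : Pool.Agent.TH202.pm f g j / Pool.Agent.TH202.pm f g l =
      (f j1 / f i1) * (g j2 / g i2) := by
    rw [h, h']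
    have := hf.1 i1
    have := hg.1 i2
    field_simp
  rw [e3]
  exact B.mul_mem (hf.2 _ e1 _) (hg.2 _ e2 _)

variable {d : Dat K} (s : Sq d)

theorem good_e3 {v : DVal K} {B : Subalgebra ℂ K} (hvc : v.ord d.c = 1) {j : ℕ}
    (hvy : v.ord (s.y j) = 0) (hc : d.c ∈ B) (hy : d.c * s.y j ∈ B) : Good v B (e3 s j) := by
  have hc0 := d.c_ne
  have o2 : v.ord (e3 s j 2) = -1 := by
    change v.ord (d.c⁻¹) = -1
    rw [v.ord_inv hc0, hvc]
  have o0 : v.ord (e3 s j 0) = 0 := v.ord_one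
  have o1 : v.ord (e3 s j 1) = 0 := hvy
  refine ⟨e3_ne s j, fun l hl i => ?_⟩
  have h2 := hl 2
  have hl2 : l = 2 := by
    fin_cases l
    · exfalso
      have : v.ord (e3 s j 0) ≤ v.ord (e3 s j 2) := h2
      omega
    · exfalso
      have : v.ord (e3 s j 1) ≤ v.ord (e3 s j 2) := h2
      omega
    · rfl
  subst hl2
  have e : e3 s j i / e3 s j 2 = d.c * e3 s j i := by
    change e3 s j i / d.c⁻¹ = d.c * e3 s j i
    rw [div_inv_eq_mul, mul_comm]
  rw [e]
  fin_cases i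
  · change d.c * 1 ∈ B
    rwa [mul_one]
  · exact hy
  · change d.c * d.c⁻¹ ∈ B
    rw [mul_inv_cancel₀ hc0]
    exact B.one_mem

theorem good_e2 {v : DVal K} {B : Subalgebra ℂ K} (hvc : v.ord d.c = 1) (hc : d.c ∈ B) :
    Good v B (e2 d) := by
  have hc0 := d.c_ne
  have o2 : v.ord (e2 d 1) = -1 := by
    change v.ord (d.c⁻¹) = -1
    rw [v.ord_inv hc0, hvc]
  have o0 : v.ord (e2 d 0) = 0 := v.ord_one
  refine ⟨e2_ne d, fun l hl i => ?_⟩
  have h2 := hl 1
  have hl2 : l = 1 := by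
    fin_cases l
    · exfalso
      have : v.ord (e2 d 0) ≤ v.ord (e2 d 1) := h2
      omega
    · rfl
  subst hl2
  have e : e2 d i / e2 d 1 = d.c * e2 d i := by
    change e2 d i / d.c⁻¹ = d.c * e2 d i
    rw [div_inv_eq_mul, mul_comm]
  rw [e]
  fin_cases i
  · change d.c * 1 ∈ B
    rwa [mul_one]
  · change d.c * d.c⁻¹ ∈ B
    rw [mul_inv_cancel₀ hc0]
    exact B.one_mem

/-- The valuation ring as a subalgebra. -/
def OS (w : DVal K) : Subalgebra ℂ K where
  carrier := {f | w.Reg f}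
  mul_mem' := fun hf hg => w.reg_mul hf hg
  add_mem' := fun hf hg => w.reg_add hf hg
  algebraMap_mem' := fun c => w.reg_const c

/-- Polynomials in `c` with coefficients in `F` and constant term in `ℂ`. -/
def PB (d : Dat K) : Subalgebra ℂ K where
  carrier := {f | ∃ p : Polynomial (Fc d), Polynomial.aeval d.c p = f ∧
    ∃ z : ℂ, p.coeff 0 = algebraMap ℂ (Fc d) z}
  mul_mem' := by
    rintro _ _ ⟨p, rfl, z, hz⟩ ⟨q, rfl, w, hw⟩
    exact ⟨p * q, map_mul _ _ _, z * w, by rw [Polynomial.mul_coeff_zero, hz, hw, map_mul]⟩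
  add_mem' := by
    rintro _ _ ⟨p, rfl, z, hz⟩ ⟨q, rfl, w, hw⟩
    exact ⟨p + q, map_add _ _ _, z + w, by rw [Polynomial.coeff_add, hz, hw, map_add]⟩
  algebraMap_mem' := by
    intro z
    refine ⟨Polynomial.C (algebraMap ℂ (Fc d) z), ?_, z, ?_⟩
    · rw [Polynomial.aeval_C, ← IsScalarTower.algebraMap_apply]
    · rw [Polynomial.coeff_C_zero]

theorem c_mem_PB (d : Dat K) : d.c ∈ PB d :=
  ⟨Polynomial.X, Polynomial.aeval_X _, 0, by rw [Polynomial.coeff_X_zero, map_zero]⟩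

theorem cy_mem_PB (d : Dat K) {y : K} (hy : y ∈ Fc d) : d.c * y ∈ PB d := by
  refine ⟨Polynomial.X * Polynomial.C (⟨y, hy⟩ : Fc d), ?_, 0, ?_⟩
  · rw [map_mul, Polynomial.aeval_X, Polynomial.aeval_C]
    rfl
  · rw [Polynomial.mul_coeff_zero, Polynomial.coeff_X_zero, zero_mul, map_zero]

/-- General form. -/
theorem main_lemma {d : Dat K} (X : Model K) (vS : DVal K) (P : DVal K → Prop)
    (h1 : ∀ w, P w → Good vS (OS w) X.ξ) (h2 : Good vS (PB d) X.ξ) :
    ∃ x : Pt X, x.Thr vS ∧ (∀ f : X.R x.i, f ∈ x.p ↔ vS.Pos (f : K)) ∧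
      (∀ w : DVal K, P w → ∀ f ∈ X.R x.i, w.Reg f) ∧
      ∀ f ∈ X.R x.i, ∃ p : Polynomial (Fc d), Polynomial.aeval d.c p = f ∧
        ∃ z : ℂ, (p.coeff 0 : K) = algebraMap ℂ K z := by
  obtain ⟨x, hx, hmin, hp⟩ := exists_cen X vS
  refine ⟨x, hx, hp, fun w hw f hf => ?_, fun f hf => ?_⟩
  · have hA : X.A x.i ≤ OS w := by
      refine Algebra.adjoin_le ?_
      rintro _ ⟨j, rfl⟩
      exact (h1 w hw).2 x.i hmin j
    exact reg_of_isIntegral w (S := X.A x.i) (fun g hg => hA hg) hf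
  · have hA : X.A x.i ≤ PB d := by
      refine Algebra.adjoin_le ?_
      rintro _ ⟨j, rfl⟩
      exact h2.2 x.i hmin j
    obtain ⟨p, hp1, z, hz⟩ := integral_form (F := Fc d) d.c (Pool.Agent.TH189.C8_VS.c_trans d)
      (Pool.Agent.TH189.C8_VS.top_eq d) (X.A x.i) (fun g hg => hA hg) hf
    refine ⟨p, hp1, z, ?_⟩
    have h3 : ((p.coeff 0 : Fc d) : K) = algebraMap (Fc d) K (p.coeff 0) := rfl
    rw [h3, hz, ← IsScalarTower.algebraMap_apply]

theorem ord_y {d : Dat K} (s : Sq d) (hy : ∀ j, s.y j ∈ Fc d) (vS : DVal K) (hvS : IsTriv d vS)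
    (j : ℕ) : vS.ord (s.y j) = 0 := hvS _ (hy j) (s.y_ne j)

/-- The centre of the valuation `c = 0` on the varieties of the sequence. -/
theorem p0_three {d : Dat K} (s : Sq d) (hy : ∀ j, s.y j ∈ Fc d) (k : ℕ) (hk : 1 ≤ k)
    (vS : DVal K) (hvS : IsTriv d vS) (hvc : vS.ord d.c = 1) :
    ∃ x : Pt (M3 s k hk), x.Thr vS ∧ (∀ f : (M3 s k hk).R x.i, f ∈ x.p ↔ vS.Pos (f : K)) ∧
      (∀ w : DVal K, 0 ≤ w.ord d.c → (∀ j, k ≤ j → j ≤ k + 2 → 0 ≤ w.ord (s.y j)) →
        ∀ f ∈ (M3 s k hk).R x.i, w.Reg f) ∧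
      ∀ f ∈ (M3 s k hk).R x.i, ∃ p : Polynomial (Fc d), Polynomial.aeval d.c p = f ∧
        ∃ z : ℂ, (p.coeff 0 : K) = algebraMap ℂ K z := by
  have key : ∀ B : Subalgebra ℂ K, d.c ∈ B → (∀ j, k ≤ j → j ≤ k + 2 → d.c * s.y j ∈ B) →
      Good vS B (M3 s k hk).ξ := by
    intro B hc hB
    have g0 := good_e3 s hvc (ord_y s hy vS hvS k) hc (hB k (by omega) (by omega))
    have g1 := good_e3 s hvc (ord_y s hy vS hvS (k + 1)) hc (hB (k + 1) (by omega) (by omega))
    have g2 := good_e3 s hvc (ord_y s hy vS hvS (k + 2)) hc (hB (k + 2) (by omega) (by omega))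
    exact ((g0.pm g1).pm g2).pm (good_e2 hvc hc)
  obtain ⟨x, h1, h2, h3, h4⟩ := main_lemma (d := d) (M3 s k hk) vS
    (fun w => 0 ≤ w.ord d.c ∧ ∀ j, k ≤ j → j ≤ k + 2 → 0 ≤ w.ord (s.y j))
    (fun w hw => key (OS w) (Or.inr hw.1)
      (fun j hj1 hj2 => w.reg_mul (Or.inr hw.1) (Or.inr (hw.2 j hj1 hj2))))
    (key (PB d) (c_mem_PB d) (fun j _ _ => cy_mem_PB d (hy j)))
  exact ⟨x, h1, h2, fun w hw1 hw2 => h3 w ⟨hw1, hw2⟩, h4⟩

theorem p0_two {d : Dat K} (s : Sq d) (hy : ∀ j, s.y j ∈ Fc d) (k : ℕ) (hk : 1 ≤ k)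
    (vS : DVal K) (hvS : IsTriv d vS) (hvc : vS.ord d.c = 1) :
    ∃ x : Pt (M2 s k hk), x.Thr vS ∧ (∀ f : (M2 s k hk).R x.i, f ∈ x.p ↔ vS.Pos (f : K)) ∧
      (∀ w : DVal K, 0 ≤ w.ord d.c → (∀ j, k ≤ j → j ≤ k + 1 → 0 ≤ w.ord (s.y j)) →
        ∀ f ∈ (M2 s k hk).R x.i, w.Reg f) ∧
      ∀ f ∈ (M2 s k hk).R x.i, ∃ p : Polynomial (Fc d), Polynomial.aeval d.c p = f ∧
        ∃ z : ℂ, (p.coeff 0 : K) = algebraMap ℂ K z := by
  have key : ∀ B : Subalgebra ℂ K, d.c ∈ B → (∀ j, k ≤ j → j ≤ k + 1 → d.c * s.y j ∈ B) →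
      Good vS B (M2 s k hk).ξ := by
    intro B hc hB
    have g0 := good_e3 s hvc (ord_y s hy vS hvS k) hc (hB k (by omega) (by omega))
    have g1 := good_e3 s hvc (ord_y s hy vS hvS (k + 1)) hc (hB (k + 1) (by omega) (by omega))
    exact (g0.pm g1).pm (good_e2 hvc hc)
  obtain ⟨x, h1, h2, h3, h4⟩ := main_lemma (d := d) (M2 s k hk) vS
    (fun w => 0 ≤ w.ord d.c ∧ ∀ j, k ≤ j → j ≤ k + 1 → 0 ≤ w.ord (s.y j))
    (fun w hw => key (OS w) (Or.inr hw.1)
      (fun j hj1 hj2 => w.reg_mul (Or.inr hw.1) (Or.inr (hw.2 j hj1 hj2))))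
    (key (PB d) (c_mem_PB d) (fun j _ _ => cy_mem_PB d (hy j)))
  exact ⟨x, h1, h2, fun w hw1 hw2 => h3 w ⟨hw1, hw2⟩, h4⟩

end Pool.Agent.TH790.FL_P0
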