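import Mathlib
import Pool.Agent.TH109.Q.Defs
import Pool.Agent.TH576.J1567

/-!
# QA-1 (job 1966): loops at small states
-/

set_option autoImplicit false

open scoped Classical

namespace Pool.Agent.TH790.J1966

open Pool.Agent.Helper943.LM (UA wpow wpow_zero wpow_succ wpow_length)
open Pool.Agent.TH109.M Pool.Agent.TH109.Q
open Pool.Agent.TH576.J1567 (lp_spec cy_run take_split st_live iter_append)

variable {G : Type} [Group G]

theorem cn_refl (U : UA G) (s : U.S) : Cn U s s := ⟨[], rfl⟩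

theorem st_add (U : UA G) (w : List U.A) {x y : ℕ} (h : x ≤ y) :
    U.run (st U w x) ((w.take y).drop x) = st U w y := by
  unfold st
  rw [← U.run_append, ← take_split w h]

theorem pt_add (U : UA G) (w : List U.A) {x y : ℕ} (h : x ≤ y) :
    pt U w y = pt U w x * U.ev ((w.take y).drop x) := by
  unfold pt
  rw [← U.ev_append, ← take_split w h]

theorem cn_path (U : UA G) (w : List U.A) {x y : ℕ} (h : x ≤ y) :
    Cn U (st U w x) (st U w y) := ⟨_, st_add U w h⟩

theorem cn_trans (U : UA G) {a b c : U.S} (h1 : Cn U a b) (h2 : Cn U b c) : Cn U a c := by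
  obtain ⟨z1, h1⟩ := h1
  obtain ⟨z2, h2⟩ := h2
  exact ⟨z1 ++ z2, by rw [U.run_append, h1, h2]⟩

theorem small_of_cn (U : UA G) {a b : U.S} (h : Cn U a b) (ha : ¬ Big U a) : ¬ Big U b := by
  rintro ⟨s', h1, h2⟩
  exact ha ⟨s', cn_trans U h h1, h2⟩

theorem star_of_small (U : UA G) (h : ¬ Big U U.s0) : Star U := by
  intro s hs X Y hX hY hl
  by_contra hne
  obtain ⟨u, hu⟩ := hs.1
  exact h ⟨s, ⟨u, hu⟩, hs, X, Y, hX, hY, hl, hne⟩

theorem starq (U : UA G) {s : U.S} (hs : U.live s) (hb : ¬ Big U s) {X Y : List U.A}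
    (hX : U.run s X = s) (hY : U.run s Y = s) (hl : X.length = Y.length) : X = Y := by
  by_contra hne
  exact hb ⟨s, cn_refl U s, hs, X, Y, hX, hY, hl, hne⟩

theorem loop3q (U : UA G) (ℓ : ℕ) (hdiv : ∀ k, 1 ≤ k → k ≤ Nat.card U.S → k ∣ ℓ) {s : U.S}
    (hs : U.live s) (hb : ¬ Big U s) (hc : Cy U s) {z : List U.A} (hz : Cn U (U.run s z) s) :
    lp U ℓ s ++ z = z ++ lp U ℓ (U.run s z) := by
  obtain ⟨z', hz'⟩ := hz
  obtain ⟨h1, h2⟩ := lp_spec U ℓ hdiv hc
  obtain ⟨h3, h4⟩ := lp_spec U ℓ hdiv (cy_run U hc hz')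
  have h5 := starq U hs hb (X := lp U ℓ s ++ z ++ z') (Y := z ++ lp U ℓ (U.run s z) ++ z')
    (by rw [U.run_append, U.run_append, h1, hz'])
    (by rw [U.run_append, U.run_append, h3, hz'])
    (by
      simp only [List.length_append]
      rw [h2, h4]
      omega)
  exact List.append_cancel_right h5

theorem evq (U : UA G) (ℓ : ℕ) (hdiv : ∀ k, 1 ≤ k → k ≤ Nat.card U.S → k ∣ ℓ) {w : List U.A}
    (hw : w ∈ U.L) {t t' : ℕ} (htt' : t ≤ t') (hb : ¬ Big U (st U w t)) (hc : Cy U (st U w t))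
    (hcn : Cn U (st U w t') (st U w t)) : EV U ℓ w t = EV U ℓ w t' := by
  set z := (w.take t').drop t with hz
  have e2 : U.run (st U w t) z = st U w t' := st_add U w htt'
  have e3 : pt U w t' = pt U w t * U.ev z := pt_add U w htt'
  rw [← e2] at hcn
  have h1 := loop3q U ℓ hdiv (st_live U hw t) hb hc hcn
  rw [e2] at h1
  have h2 := congrArg U.ev h1
  rw [U.ev_append, U.ev_append] at h2
  unfold EV
  rw [e3]
  calc pt U w t * U.ev (lp U ℓ (st U w t)) * (pt U w t)⁻¹
      = pt U w t * (U.ev (lp U ℓ (st U w t)) * U.ev z) * (U.ev z)⁻¹ * (pt U w t)⁻¹ := by group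
    _ = pt U w t * (U.ev z * U.ev (lp U ℓ (st U w t'))) * (U.ev z)⁻¹ * (pt U w t)⁻¹ := by rw [h2]
    _ = pt U w t * U.ev z * U.ev (lp U ℓ (st U w t')) * (pt U w t * U.ev z)⁻¹ := by group

theorem injq (U : UA G) {w : List U.A} (hw : w ∈ U.L) {t t' : ℕ} (htt' : t ≤ t')
    {Z Z' : List U.A} (hZ : Z ≠ []) (h1 : U.run (st U w t) Z = st U w t)
    (h3 : U.run (st U w t') Z' = st U w t')
    (hEV : pt U w t * U.ev Z * (pt U w t)⁻¹ = pt U w t' * U.ev Z' * (pt U w t')⁻¹) :
    Cn U (st U w t') (st U w t) := by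
  set z := (w.take t').drop t with hz
  have e2 : U.run (st U w t) z = st U w t' := st_add U w htt'
  have e3 : pt U w t' = pt U w t * U.ev z := pt_add U w htt'
  have h5 : U.ev Z * U.ev z = U.ev z * U.ev Z' := by
    rw [e3] at hEV
    calc U.ev Z * U.ev z
        = (pt U w t)⁻¹ * (pt U w t * U.ev Z * (pt U w t)⁻¹) * pt U w t *
          U.ev z := by group
      _ = (pt U w t)⁻¹ * (pt U w t * U.ev z * U.ev Z' *
          (pt U w t * U.ev z)⁻¹) * pt U w t * U.ev z := by rw [hEV]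
      _ = U.ev z * U.ev Z' := by group
  have hacc : U.run (st U w t') (w.drop t') ∈ U.acc := by
    unfold st
    rw [← U.run_append, List.take_append_drop]
    exact hw
  have m1 : w.take t ++ Z ++ z ++ w.drop t' ∈ U.L := by
    rw [U.mem_L, U.run_append, U.run_append, U.run_append]
    change U.run (U.run (U.run (st U w t) Z) z) (w.drop t') ∈ U.acc
    rw [h1, e2]
    exact hacc
  have m2 : w.take t ++ z ++ Z' ++ w.drop t' ∈ U.L := by
    rw [U.mem_L, U.run_append, U.run_append, U.run_append]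
    change U.run (U.run (U.run (st U w t) z) Z') (w.drop t') ∈ U.acc
    rw [e2, h3]
    exact hacc
  have h6 := U.ev_inj m1 m2 (by
    simp only [U.ev_append]
    rw [mul_assoc (U.ev (w.take t)), h5]
    simp only [mul_assoc])
  have h7 : Z ++ z = z ++ Z' := by
    have h8 := List.append_cancel_right h6
    rw [List.append_assoc, List.append_assoc] at h8
    exact List.append_cancel_left h8
  have h8 := iter_append _ _ _ h7 z.length
  have h9 : z <+: wpow Z z.length := by
    refine List.prefix_of_prefix_length_le (l₃ := z ++ wpow Z' z.length)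
      (List.prefix_append _ _) ?_ ?_
    · rw [← h8]
      exact List.prefix_append _ _
    · rw [wpow_length]
      exact Nat.le_mul_of_pos_right _ (List.length_pos_iff.2 hZ)
  obtain ⟨y, hy⟩ := h9
  refine ⟨y, ?_⟩
  rw [← e2, ← U.run_append, hy]
  exact U.run_wpow h1 _

theorem loopQ (U : UA G) (ℓ : ℕ) (hℓ : 0 < ℓ)
    (hdiv : ∀ k, 1 ≤ k → k ≤ Nat.card U.S → k ∣ ℓ) : LoopQ U ℓ := by
  have tm_class : ∀ g e t x, t ∈ TM U ℓ g e → x ≤ len U g →
      Cn U (st U (nf U g) x) (st U (nf U g) t) → Cn U (st U (nf U g) t) (st U (nf U g) x) →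
      x ∈ TM U ℓ g e := by
    rintro g e t x ⟨h1, h2, h3, h4⟩ hx c1 c2
    have hbx : ¬ Big U (st U (nf U g) x) := small_of_cn U c2 h2
    have hcx : Cy U (st U (nf U g) x) := by
      obtain ⟨z, hz⟩ := c2
      obtain ⟨z', hz'⟩ := c1
      have := cy_run U h3 (z := z) (z' := z') (by rw [hz, hz'])
      rwa [hz] at this
    refine ⟨hx, hbx, hcx, ?_⟩
    rw [← h4]
    rcases le_total t x with h | h
    · exact (evq U ℓ hdiv (nf_mem U g) h h2 h3 c1).symm
    · exact evq U ℓ hdiv (nf_mem U g) h hbx hcx c2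
  have tm_cn : ∀ g e t t', t ∈ TM U ℓ g e → t' ∈ TM U ℓ g e → t ≤ t' →
      Cn U (st U (nf U g) t') (st U (nf U g) t) := by
    rintro g e t t' ⟨_, _, h3, h4⟩ ⟨_, _, h3', h4'⟩ htt'
    obtain ⟨a1, a2⟩ := lp_spec U ℓ hdiv h3
    obtain ⟨b1, b2⟩ := lp_spec U ℓ hdiv h3'
    refine injq U (nf_mem U g) htt' ?_ a1 b1 (h4.trans h4'.symm)
    intro h0
    rw [h0, List.length_nil] at a2
    omega
  refine ⟨hℓ, fun s _ _ hc => (lp_spec U ℓ hdiv hc).1, fun s _ _ hc => (lp_spec U ℓ hdiv hc).2,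
    ?_, ?_, ?_, tm_class, tm_cn, ?_, ?_⟩
  · intro w t t' htt' hb
    exact small_of_cn U (cn_path U w htt') hb
  · intro s hs hb X Y hX hY hl
    exact starq U hs hb hX hY hl
  · intro w hw t t' htt' Z Z' hZ h1 h2 _ hEV
    exact injq U hw htt' hZ h1 h2 hEV
  · intro g e hne t
    have hbd : BddAbove (TM U ℓ g e) := ⟨len U g, fun x hx => hx.1⟩
    have ha : Ta U ℓ g e ∈ TM U ℓ g e := Nat.sInf_mem hne
    have hb : Tb U ℓ g e ∈ TM U ℓ g e := Nat.sSup_mem hne hbd
    constructor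
    · intro ht
      exact ⟨Nat.sInf_le ht, le_csSup hbd ht⟩
    · rintro ⟨h1, h2⟩
      refine tm_class g e _ t ha (h2.trans hb.1) ?_ (cn_path U _ h1)
      exact cn_trans U (cn_path U _ h2) (tm_cn g e _ _ ha hb (h1.trans h2))
  · intro g e t ht ht'
    have hlen : t + ℓ ≤ (nf U g).length := ht'.1
    set w := nf U g with hw
    set z := (w.take (t + ℓ)).drop t with hz
    have hzl : z.length = ℓ := by
      rw [hz, List.length_drop, List.length_take, min_eq_left hlen]
      omega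
    have e2 : U.run (st U w t) z = st U w (t + ℓ) := st_add U w (Nat.le_add_right _ _)
    have e3 : pt U w (t + ℓ) = pt U w t * U.ev z := pt_add U w (Nat.le_add_right _ _)
    have hcn : Cn U (st U w (t + ℓ)) (st U w t) := tm_cn g e _ _ ht ht' (Nat.le_add_right _ _)
    rw [← e2] at hcn
    have h1 := loop3q U ℓ hdiv (st_live U (nf_mem U g) t) ht.2.1 ht.2.2.1 hcn
    obtain ⟨a1, a2⟩ := lp_spec U ℓ hdiv ht.2.2.1
    have h2 : lp U ℓ (st U w t) = z := (List.append_inj h1 (by rw [hzl]; exact a2)).1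
    have h4 := ht.2.2.2
    refine ⟨?_, ?_⟩
    · rw [← e2, ← h2]
      exact a1
    · rw [e3, ← h2, ← h4]
      show pt U w t * U.ev (lp U ℓ (st U w t)) =
        pt U w t * U.ev (lp U ℓ (st U w t)) * (pt U w t)⁻¹ * pt U w t
      group

/-- at most `card S` values -/
theorem vals_card (U : UA G) (ℓ : ℕ) (hQ : LoopQ U ℓ) (g : G) (E : Finset G)
    (h : ∀ e ∈ E, (TM U ℓ g e).Nonempty) : E.card ≤ Nat.card U.S := by
  have := U.finS
  choose f hf using fun e : E => h e.1 e.2
  have hinj : Function.Injective (fun e : E => st U (nf U g) (f e)) := by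
    intro e e' he
    have he' : st U (nf U g) (f e) = st U (nf U g) (f e') := he
    have h1 : f e' ∈ TM U ℓ g e.1 := by
      refine hQ.tm_class g e.1 (f e) (f e') (hf e) (hf e').1 ?_ ?_
      · rw [he']; exact cn_refl U _
      · rw [he']; exact cn_refl U _
    apply Subtype.ext
    rw [← h1.2.2.2]
    exact (hf e').2.2.2
  have h2 := Nat.card_le_card_of_injective _ hinj
  rwa [Nat.card_eq_fintype_card, Fintype.card_coe] at h2

end Pool.Agent.TH790.J1966
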