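import Mathlib
import Pool.Agent.TH109.Q.Defs

/-!
# QA-3 (job 1968): removing loops from the long stays
-/

set_option autoImplicit false

open scoped Classical

namespace Pool.Agent.TH790.J1968

open Pool.Agent.Helper943.LM (UA wpow)
open Pool.Agent.TH109.M Pool.Agent.TH109.Q

variable {G : Type} [Group G]

theorem take_of_take {α : Type} {w v : List α} {t x : ℕ} (h : w.take t = v.take t) (hx : x ≤ t) :
    w.take x = v.take x := by
  have h1 : w.take x = (w.take t).take x := by rw [List.take_take, min_eq_left hx]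
  have h2 : v.take x = (v.take t).take x := by rw [List.take_take, min_eq_left hx]
  rw [h1, h2, h]

theorem loops (U : UA G) (ℓ : ℕ) (hQ : LoopQ U ℓ) (g e : G) (hne : (TM U ℓ g e).Nonempty)
    (i : ℕ) (hi : Ta U ℓ g e + i * ℓ ≤ Tb U ℓ g e) :
    st U (nf U g) (Ta U ℓ g e + i * ℓ) = st U (nf U g) (Ta U ℓ g e) ∧
      pt U (nf U g) (Ta U ℓ g e + i * ℓ) = e ^ i * pt U (nf U g) (Ta U ℓ g e) := by
  induction i with
  | zero => simp
  | succ i ih =>
    have h1 : Ta U ℓ g e + i * ℓ ≤ Tb U ℓ g e := by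
      rw [Nat.succ_mul] at hi
      omega
    obtain ⟨a1, a2⟩ := ih h1
    have m1 : Ta U ℓ g e + i * ℓ ∈ TM U ℓ g e := (hQ.tm_int g e hne _).2 ⟨by omega, h1⟩
    have e1 : Ta U ℓ g e + (i + 1) * ℓ = Ta U ℓ g e + i * ℓ + ℓ := by ring
    have m2 : Ta U ℓ g e + i * ℓ + ℓ ∈ TM U ℓ g e :=
      (hQ.tm_int g e hne _).2 ⟨by omega, by rw [← e1]; exact hi⟩
    obtain ⟨b1, b2⟩ := hQ.tm_loop g e _ m1 m2
    rw [e1]
    refine ⟨b1.trans a1, ?_⟩
    rw [b2, a2, pow_succ', mul_assoc]

theorem removal_aux (U : UA G) (ℓ : ℕ) (hQ : LoopQ U ℓ) (g : G) (n : ℕ) :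
    ∀ E : Finset G, E.card = n → (∀ e ∈ E, (TM U ℓ g e).Nonempty) →
    ∃ l : List G, l.Nodup ∧ l.toFinset = E ∧ ∃ w ∈ U.L,
      g = (l.map (fun e => e ^ (mm U ℓ g e))).prod * U.ev w ∧
      w.length + ℓ * ∑ e ∈ E, mm U ℓ g e = len U g ∧
      ∀ t ≤ len U g, (∀ e ∈ E, t ≤ Ta U ℓ g e) →
        t ≤ w.length ∧ w.take t = (nf U g).take t := by
  induction n with
  | zero =>
    intro E hE _
    have : E = ∅ := Finset.card_eq_zero.1 hE
    subst this
    refine ⟨[], List.nodup_nil, rfl, nf U g, nf_mem U g, ?_, ?_, ?_⟩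
    · simp [nf_ev]
    · simp [len]
    · intro t ht _
      exact ⟨ht, rfl⟩
  | succ n ih =>
    intro E hE h
    have hEne : E.Nonempty := by
      rw [← Finset.card_pos]; omega
    obtain ⟨e0, he0, hmin⟩ := Finset.exists_min_image E (fun e => Ta U ℓ g e) hEne
    obtain ⟨l', hnd, hl', w', hw', hg, hlen, hag⟩ := ih (E.erase e0)
      (by rw [Finset.card_erase_of_mem he0, hE]; rfl)
      (fun e he => h e (Finset.mem_of_mem_erase he))
    have hne0 := h e0 he0
    have hint := hQ.tm_int g e0 hne0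
    have hTab : Ta U ℓ g e0 ≤ Tb U ℓ g e0 := by
      obtain ⟨t, ht⟩ := hne0
      have := (hint t).1 ht
      omega
    have hTb : Tb U ℓ g e0 ∈ TM U ℓ g e0 := (hint _).2 ⟨hTab, le_rfl⟩
    have hdis : ∀ e ∈ E.erase e0, Tb U ℓ g e0 < Ta U ℓ g e := by
      intro e he
      obtain ⟨hne, heE⟩ := Finset.mem_erase.1 he
      by_contra hcon
      push Not at hcon
      have hm := hmin e heE
      have m1 : Ta U ℓ g e ∈ TM U ℓ g e0 := (hint _).2 ⟨hm, hcon⟩
      have m2 : Ta U ℓ g e ∈ TM U ℓ g e := by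
        have hi2 := hQ.tm_int g e (h e heE)
        obtain ⟨t, ht⟩ := h e heE
        have := (hi2 t).1 ht
        exact (hi2 _).2 ⟨le_rfl, by omega⟩
      exact hne (m2.2.2.2.symm.trans m1.2.2.2)
    obtain ⟨a, ha⟩ : ∃ a, a = Ta U ℓ g e0 := ⟨_, rfl⟩
    obtain ⟨m, hm⟩ : ∃ m, m = mm U ℓ g e0 := ⟨_, rfl⟩
    obtain ⟨t, ht⟩ : ∃ t, t = a + m * ℓ := ⟨_, rfl⟩
    have hmle : m * ℓ ≤ Tb U ℓ g e0 - Ta U ℓ g e0 := by
      rw [hm]
      exact Nat.div_mul_le_self _ _
    have htb : t ≤ Tb U ℓ g e0 := by omega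
    obtain ⟨htl, hta⟩ := hag t (htb.trans hTb.1) (fun e he => by
      have := hdis e he
      omega)
    have hat : a ≤ t := by omega
    obtain ⟨c1, c2⟩ := loops U ℓ hQ g e0 hne0 m (by rw [← ha, ← ht]; exact htb)
    rw [← ha, ← ht] at c1 c2
    have hwa : w'.take a = (nf U g).take a := take_of_take hta hat
    have hlens : (w'.take a ++ w'.drop t).length + m * ℓ = w'.length := by
      rw [List.length_append, List.length_take, List.length_drop,
        min_eq_left (hat.trans htl)]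
      omega
    refine ⟨l' ++ [e0], ?_, ?_, w'.take a ++ w'.drop t, ?_, ?_, ?_, ?_⟩
    · rw [List.nodup_append]
      refine ⟨hnd, List.nodup_singleton _, ?_⟩
      intro x hx y hy hxy
      rw [List.mem_singleton] at hy
      have : x ∈ l'.toFinset := List.mem_toFinset.2 hx
      rw [hl', Finset.mem_erase] at this
      exact this.1 (hxy.trans hy)
    · rw [List.toFinset_append, hl']
      ext x
      simp only [List.toFinset_cons, List.toFinset_nil, Finset.mem_union, Finset.mem_erase,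
        Finset.mem_insert, Finset.notMem_empty, or_false]
      constructor
      · rintro (⟨_, hx⟩ | rfl)
        · exact hx
        · exact he0
      · intro hx
        by_cases hxe : x = e0
        · exact Or.inr hxe
        · exact Or.inl ⟨hxe, hx⟩
    · refine U.swap (u := w'.take t) ?_ ?_
      · rw [List.take_append_drop]
        exact hw'
      · rw [hta, hwa]
        exact c1
    · rw [List.map_append, List.prod_append, List.map_singleton, List.prod_singleton,
        U.ev_append, hwa]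
      have e1 : U.ev w' = pt U (nf U g) t * U.ev (w'.drop t) := by
        conv_lhs => rw [← List.take_append_drop t w']
        rw [U.ev_append, hta]
        rfl
      rw [c2] at e1
      conv_lhs => rw [hg, e1]
      rw [← hm]
      simp only [mul_assoc]
      rfl
    · rw [← Finset.add_sum_erase E (fun e => mm U ℓ g e) he0, ← hm, ← hlen]
      have : ℓ * (m + ∑ e ∈ E.erase e0, mm U ℓ g e) =
          m * ℓ + ℓ * ∑ e ∈ E.erase e0, mm U ℓ g e := by ring
      rw [this, ← add_assoc, hlens]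
    · intro t' ht' hE'
      have h1 : t' ≤ a := by rw [ha]; exact hE' e0 he0
      have h2 : (w'.take a).length = a := by
        rw [List.length_take, min_eq_left (hat.trans htl)]
      refine ⟨?_, ?_⟩
      · rw [List.length_append, h2]
        omega
      · rw [List.take_append_of_le_length (by rw [h2]; exact h1), List.take_take,
          min_eq_left h1]
        exact take_of_take hta (h1.trans hat)

theorem removal (U : UA G) (ℓ : ℕ) (hQ : LoopQ U ℓ) (g : G) (E : Finset G)
    (h : ∀ e ∈ E, (TM U ℓ g e).Nonempty) :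
    ∃ l : List G, l.Nodup ∧ l.toFinset = E ∧ ∃ w ∈ U.L,
      g = (l.map (fun e => e ^ (mm U ℓ g e))).prod * U.ev w ∧
      w.length + ℓ * ∑ e ∈ E, mm U ℓ g e = len U g ∧
      ∀ t ≤ len U g, Big U (st U (nf U g) t) → t ≤ w.length ∧ w.take t = (nf U g).take t := by
  obtain ⟨l, h1, h2, w, h3, h4, h5, h6⟩ := removal_aux U ℓ hQ g _ E rfl h
  refine ⟨l, h1, h2, w, h3, h4, h5, ?_⟩
  intro t ht hbig
  refine h6 t ht ?_
  intro e he
  by_contra hcon
  push Not at hcon
  have hi := hQ.tm_int g e (h e he)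
  obtain ⟨x, hx⟩ := h e he
  have h7 := (hi x).1 hx
  have h8 : Ta U ℓ g e ∈ TM U ℓ g e := (hi _).2 ⟨le_rfl, by omega⟩
  exact hQ.small_fwd (nf U g) _ t hcon.le h8.2.1 hbig

end Pool.Agent.TH790.J1968
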