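import Mathlib
import Pool.Agent.TH109.Q.Defs

/-!
# QA-4 (job 1969): a new stay in a window of small states
-/

set_option autoImplicit false

open scoped Classical

namespace Pool.Agent.TH790.J1969

open Pool.Agent.Helper943.LM (UA wpow)
open Pool.Agent.TH109.M Pool.Agent.TH109.Q

variable {G : Type} [Group G]

theorem take_split {α : Type} (w : List α) {x y : ℕ} (h : x ≤ y) :
    w.take y = w.take x ++ (w.take y).drop x := by
  have h1 := List.take_append_drop x (w.take y)
  rw [List.take_take, min_eq_left h] at h1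
  exact h1.symm

theorem st_add (U : UA G) (w : List U.A) {x y : ℕ} (h : x ≤ y) :
    U.run (st U w x) ((w.take y).drop x) = st U w y := by
  unfold st
  rw [← U.run_append, ← take_split w h]

theorem new_stay (U : UA G) (ℓ : ℕ) (hQ : LoopQ U ℓ) (g : G) (E : Finset G) (p q K : ℕ)
    (hp : ¬ Big U (st U (nf U g) p)) (hq : q ≤ len U g)
    (hc : Nat.card U.S * (K + 1) <
      ((Finset.Icc p q).filter (fun t => ∀ e ∈ E, t ∉ TM U ℓ g e)).card) :
    ∃ e, e ∉ E ∧ ∃ p' q', p ≤ p' ∧ p' + K ≤ q' ∧ q' ≤ q ∧ p' ∈ TM U ℓ g e ∧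
      q' ∈ TM U ℓ g e := by
  have := U.finS
  letI : Fintype U.S := Fintype.ofFinite _
  set F0 := (Finset.Icc p q).filter (fun t => ∀ e ∈ E, t ∉ TM U ℓ g e) with hF0
  obtain ⟨y, -, hy⟩ := Finset.exists_lt_card_fiber_of_mul_lt_card_of_maps_to
    (s := F0) (t := (Finset.univ : Finset U.S)) (f := fun t => st U (nf U g) t) (n := K + 1)
    (fun a _ => Finset.mem_univ _) (by
      rw [Finset.card_univ, ← Nat.card_eq_fintype_card]
      exact hc)
  set F1 := F0.filter (fun t => st U (nf U g) t = y) with hF1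
  have hne : F1.Nonempty := by
    rw [← Finset.card_pos]
    omega
  set p' := F1.min' hne with hp'
  set q' := F1.max' hne with hq'
  have hpm : p' ∈ F1 := Finset.min'_mem _ _
  have hqm : q' ∈ F1 := Finset.max'_mem _ _
  have hsub : F1 ⊆ Finset.Icc p' q' := by
    intro t ht
    rw [Finset.mem_Icc]
    exact ⟨Finset.min'_le _ _ ht, Finset.le_max' _ _ ht⟩
  have hcard := Finset.card_le_card hsub
  rw [Nat.card_Icc] at hcard
  have hK : p' + K + 1 ≤ q' := by omega
  obtain ⟨hp0, hpy⟩ := Finset.mem_filter.1 hpm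
  obtain ⟨hq0, hqy⟩ := Finset.mem_filter.1 hqm
  obtain ⟨hpI, hpE⟩ := Finset.mem_filter.1 hp0
  obtain ⟨hqI, -⟩ := Finset.mem_filter.1 hq0
  rw [Finset.mem_Icc] at hpI hqI
  have hst : st U (nf U g) q' = st U (nf U g) p' := hqy.trans hpy.symm
  have hql : q' ≤ (nf U g).length := hqI.2.trans hq
  have hcy : Cy U (st U (nf U g) p') := by
    refine ⟨((nf U g).take q').drop p', ?_, ?_⟩
    · intro h0
      have := congrArg List.length h0
      rw [List.length_drop, List.length_take, min_eq_left hql, List.length_nil] at this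
      omega
    · rw [st_add U _ (by omega : p' ≤ q'), hst]
  have hmem : p' ∈ TM U ℓ g (EV U ℓ (nf U g) p') :=
    ⟨hpI.2.trans hq, hQ.small_fwd _ p p' hpI.1 hp, hcy, rfl⟩
  refine ⟨EV U ℓ (nf U g) p', ?_, p', q', hpI.1, by omega, hqI.2, hmem, ?_⟩
  · intro hE
    exact hpE _ hE hmem
  · refine hQ.tm_class g _ p' q' hmem (hqI.2.trans hq) ?_ ?_
    · rw [hst]; exact ⟨[], rfl⟩
    · rw [hst]; exact ⟨[], rfl⟩

theorem Sy_finite (U : UA G) : (Sy U).Finite := by
  have := U.finA
  have : Sy U = Set.range U.mu ∪ Set.range (fun a => (U.mu a)⁻¹) := by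
    ext x
    rfl
  rw [this]
  exact (Set.finite_range _).union (Set.finite_range _)

theorem Bl_finite (U : UA G) (n : ℕ) : (Bl U n).Finite := by
  induction n with
  | zero =>
    refine (Set.finite_singleton (1 : G)).subset ?_
    rintro g ⟨l, h1, -, h3⟩
    have : l = [] := List.length_eq_zero_iff.1 (by omega)
    subst this
    simpa using h3.symm
  | succ n ih =>
    refine ((Set.finite_singleton (1 : G)).union
      (Set.Finite.image2 (· * ·) (Sy_finite U) ih)).subset ?_
    rintro g ⟨l, h1, h2, h3⟩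
    cases l with
    | nil => left; simpa using h3.symm
    | cons x l =>
      right
      refine ⟨x, h2 x (by simp), l.prod, ⟨l, ?_, fun y hy => h2 y (by simp [hy]), rfl⟩, ?_⟩
      · rw [List.length_cons] at h1
        omega
      · rw [← h3, List.prod_cons]

/-- balls are finite and every element is in some ball -/
theorem Bl_facts (U : UA G) : (∀ n, (Bl U n).Finite) ∧ (∀ g : G, ∃ n, g ∈ Bl U n) ∧
    (∀ m n, m ≤ n → Bl U m ⊆ Bl U n) ∧
    (∀ m n, ∀ g ∈ Bl U m, ∀ h ∈ Bl U n, g * h ∈ Bl U (m + n)) := by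
  refine ⟨Bl_finite U, ?_, ?_, ?_⟩
  · intro g
    refine ⟨len U g, (nf U g).map U.mu, ?_, ?_, nf_ev U g⟩
    · rw [List.length_map]
      exact le_rfl
    · intro x hx
      obtain ⟨a, -, ha⟩ := List.mem_map.1 hx
      exact Or.inl ⟨a, ha⟩
  · rintro m n hmn g ⟨l, h1, h2, h3⟩
    exact ⟨l, h1.trans hmn, h2, h3⟩
  · rintro m n g ⟨l, h1, h2, h3⟩ h ⟨l', h1', h2', h3'⟩
    refine ⟨l ++ l', ?_, ?_, ?_⟩
    · rw [List.length_append]
      omega
    · intro x hx
      rcases List.mem_append.1 hx with hx | hx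
      · exact h2 x hx
      · exact h2' x hx
    · rw [List.prod_append, h3, h3']

end Pool.Agent.TH790.J1969
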