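import Pool.Agent.TH790.V.HX2

/-!
# Job 1744 (V-HX): the outer integral at a hub, uniformly in a parameter
-/

set_option autoImplicit false

namespace Pool.Agent.TH790.J1744

theorem hx : Pool.Agent.TH563.V.S_HX := Pool.Agent.TH790.V.hx

end Pool.Agent.TH790.J1744
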